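import Mathlib

set_option autoImplicit false

namespace Pool.Agent.Results.MP_5491e1_lc.Counter
open Finset

/-- A profile gives each voter `i` a ranking `P i`: `P i r` is the candidate in position `r`
(position `0` is the top), so `(P i).symm a` is the position of candidate `a`.
`(i, j)` is an edge of `G_k(a)` iff `top j = a`, or `a` is among the `k` highest candidates of `i`
and `i` does not rank `top j` above `a`. -/
def Edge {n m : ℕ} [NeZero m] (P : Fin n → Equiv.Perm (Fin m)) (k : ℕ) (a : Fin m) (i j : Fin n) : Prop :=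
  P j 0 = a ∨ (((P i).symm a).val < k ∧ ¬ (P i).symm (P j 0) < (P i).symm a)

def tab : Fin 10 → Fin 18 → Fin 18 := ![
  ![0, 1, 2, 3, 4, 10, 11, 12, 13, 14, 15, 5, 6, 7, 8, 9, 16, 17],
  ![1, 0, 2, 3, 4, 10, 11, 12, 13, 16, 17, 5, 6, 7, 8, 9, 14, 15],
  ![2, 0, 1, 3, 4, 10, 11, 12, 13, 14, 15, 5, 6, 7, 8, 9, 16, 17],
  ![3, 0, 1, 2, 4, 10, 11, 12, 13, 16, 17, 5, 6, 7, 8, 9, 14, 15],
  ![4, 0, 1, 2, 3, 10, 11, 12, 13, 14, 15, 5, 6, 7, 8, 9, 16, 17],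
  ![5, 6, 7, 8, 9, 14, 15, 16, 17, 10, 11, 0, 1, 2, 3, 4, 12, 13],
  ![6, 5, 7, 8, 9, 14, 15, 16, 17, 12, 13, 0, 1, 2, 3, 4, 10, 11],
  ![7, 5, 6, 8, 9, 14, 15, 16, 17, 10, 11, 0, 1, 2, 3, 4, 12, 13],
  ![8, 5, 6, 7, 9, 14, 15, 16, 17, 12, 13, 0, 1, 2, 3, 4, 10, 11],
  ![9, 5, 6, 7, 8, 14, 15, 16, 17, 10, 11, 0, 1, 2, 3, 4, 12, 13]]

def pos : Fin 10 → Fin 18 → Fin 18 := ![
  ![0, 1, 2, 3, 4, 11, 12, 13, 14, 15, 5, 6, 7, 8, 9, 10, 16, 17],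
  ![1, 0, 2, 3, 4, 11, 12, 13, 14, 15, 5, 6, 7, 8, 16, 17, 9, 10],
  ![1, 2, 0, 3, 4, 11, 12, 13, 14, 15, 5, 6, 7, 8, 9, 10, 16, 17],
  ![1, 2, 3, 0, 4, 11, 12, 13, 14, 15, 5, 6, 7, 8, 16, 17, 9, 10],
  ![1, 2, 3, 4, 0, 11, 12, 13, 14, 15, 5, 6, 7, 8, 9, 10, 16, 17],
  ![11, 12, 13, 14, 15, 0, 1, 2, 3, 4, 9, 10, 16, 17, 5, 6, 7, 8],
  ![11, 12, 13, 14, 15, 1, 0, 2, 3, 4, 16, 17, 9, 10, 5, 6, 7, 8],
  ![11, 12, 13, 14, 15, 1, 2, 0, 3, 4, 9, 10, 16, 17, 5, 6, 7, 8],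
  ![11, 12, 13, 14, 15, 1, 2, 3, 0, 4, 16, 17, 9, 10, 5, 6, 7, 8],
  ![11, 12, 13, 14, 15, 1, 2, 3, 4, 0, 9, 10, 16, 17, 5, 6, 7, 8]]

def P (i : Fin 10) : Equiv.Perm (Fin 18) :=
  ⟨tab i, pos i, (by decide +kernel : ∀ i r, pos i (tab i r) = r) i,
    (by decide +kernel : ∀ i r, tab i (pos i r) = r) i⟩

def U (a : Fin 18) : Finset (Fin 10) :=
  univ.filter fun i => (pos i a).val < 11 ∧ (a.val < 10 ∨ 9 ≤ (pos i a).val)

def W (a : Fin 18) : Finset (Fin 10) := if a.val < 10 then univ.filter fun j => j.val = a.val else U a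

instance (a : Fin 18) (i j : Fin 10) : Decidable (Edge P 11 a i j) := by unfold Edge; infer_instance

theorem cover : ∀ a i j, Edge P 11 a i j → (∃ l, Edge P 11 a j l) → i ∈ U a ∨ j ∈ W a := by
  decide +kernel

theorem small : ∀ a, (U a).card + (W a).card ≤ 6 := by decide +kernel

theorem result : ∃ (n m k : ℕ) (_ : NeZero m) (P : Fin n → Equiv.Perm (Fin m)), 1 ≤ n ∧ 1 ≤ k ∧ k ≤ m ∧
    ∀ (a : Fin m) (S : Finset (Fin n)) (M : S ≃ S), (∀ i : S, Edge P k a i (M i)) →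
      (S.card : ℚ) < n * k / m := by
  refine ⟨10, 18, 11, inferInstance, P, by omega, by omega, by omega, fun a S M h => ?_⟩
  have k : ∀ (X : Finset (Fin 10)) (e : S ≃ S), (univ.filter fun i : S => (e i).1 ∈ X).card ≤ X.card :=
    fun X e => card_le_card_of_injOn (fun i => (e i).1) (fun i hi => by simpa using hi)
      fun i _ j _ q => e.injective (Subtype.ext q)
  have : (univ : Finset S) ⊆ (univ.filter fun i : S => (Equiv.refl S i).1 ∈ U a) ∪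
      univ.filter fun i : S => (M i).1 ∈ W a := fun i _ => by
    simpa using cover a i (M i) (h i) ⟨_, h (M i)⟩
  have := (card_le_card this).trans ((card_union_le _ _).trans ((add_le_add (k _ _) (k _ _)).trans (small a)))
  rw [card_univ, Fintype.card_coe] at this
  have : (S.card : ℚ) ≤ 6 := by exact_mod_cast this
  push_cast; linarith

end Pool.Agent.Results.MP_5491e1_lc.Counter
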